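import Mathlib
import Pool.Agent.R992.PI.Nss

/-! Finite differences of Pfaffians: intersection numbers. -/

set_option autoImplicit false
set_option linter.all false

open Matrix MvPolynomial
open scoped fwdDiff

noncomputable section

namespace Pool.Agent.R992.PI

open Pool.Agent.Y109.PI Pool.Agent.Helper929

/-- binomial weights -/
def wt (a k : ℕ) : ℤ := (-1) ^ (a - k) * (a.choose k : ℤ)

theorem wt_sum (a b : ℕ) : ∑ k ∈ Finset.range (a + 1), wt a k * (k : ℤ) ^ b = (fwdDiff (1 : ℤ))^[a] (fun r : ℤ => r ^ b) 0 := by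
  rw [fwdDiff_iter_eq_sum_shift]
  refine Finset.sum_congr rfl fun k _ => ?_
  simp [wt, smul_eq_mul]

theorem wt_sum_lt {a b : ℕ} (h : b < a) : ∑ k ∈ Finset.range (a + 1), wt a k * (k : ℤ) ^ b = 0 := by
  rw [wt_sum, fwdDiff_iter_pow_eq_zero_of_lt h]
  rfl

theorem wt_sum_eq (a : ℕ) : ∑ k ∈ Finset.range (a + 1), wt a k * (k : ℤ) ^ a = (a.factorial : ℤ) := by
  rw [wt_sum, fwdDiff_iter_eq_factorial]
  rfl

variable {κ : Type*} [Fintype κ] [DecidableEq κ]

/-- the mixed difference of order `m` at `0` -/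
def mixed (m : κ →₀ ℕ) (F : (κ → ℤ) → ℤ) : ℤ :=
  ∑ k ∈ Fintype.piFinset (fun i => Finset.range (m i + 1)), (∏ i, wt (m i) (k i)) * F fun i => (k i : ℤ)

theorem mixed_mono (m : κ →₀ ℕ) (b : κ → ℕ) :
    mixed m (fun x => ∏ i, x i ^ b i) = ∏ i, ∑ k ∈ Finset.range (m i + 1), wt (m i) k * (k : ℤ) ^ b i := by
  rw [mixed, Finset.prod_univ_sum]
  refine Finset.sum_congr rfl fun k _ => ?_
  rw [← Finset.prod_mul_distrib]

/-- mixed differences of a homogeneous form with one more variable -/
theorem mixed_hom (g : ℕ) (m : κ →₀ ℕ) (hm : ∑ i, m i = g) (F : MvPolynomial (Option κ) ℤ)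
    (hF : F.IsHomogeneous g) (w : ℤ) :
    mixed m (fun x => eval (fun o : Option κ => Option.elim o w x) F) =
      (∏ i, ((m i).factorial : ℤ)) * F.coeff (m.mapDomain some) := by
  have hinj : Function.Injective (some : κ → Option κ) := Option.some_injective _
  have hD0 : ∀ i, (m.mapDomain some) (some i) = m i := fun i => Finsupp.mapDomain_apply hinj m i
  have hDn : (m.mapDomain some) (none : Option κ) = 0 := by
    apply Finsupp.mapDomain_notin_range
    rintro ⟨x, hx⟩
    cases hx
  have hmulti : ∀ D : Option κ →₀ ℕ, ∀ x : κ → ℤ, ∏ o, (Option.elim o w x) ^ D o =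
      w ^ D none * ∏ i, x i ^ D (some i) := by
    intro D x
    rw [Fintype.prod_option]
    rfl
  have h1 : mixed m (fun x => eval (fun o : Option κ => Option.elim o w x) F) =
      ∑ D ∈ F.support, F.coeff D * (w ^ D none * mixed m (fun x => ∏ i, x i ^ D (some i))) := by
    simp only [mixed, Finset.mul_sum]
    rw [Finset.sum_comm]
    refine Finset.sum_congr rfl fun k _ => ?_
    rw [eval_eq', Finset.mul_sum]
    refine Finset.sum_congr rfl fun D _ => ?_
    rw [hmulti]
    ring
  rw [h1, Finset.sum_eq_single (m.mapDomain some)]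
  · rw [hDn, pow_zero, one_mul, mixed_mono]
    simp only [hD0, wt_sum_eq]
    rw [mul_comm]
  · intro D hD hne
    have hdeg : D none + ∑ i, D (some i) = g := by
      have h := hF (mem_support_iff.1 hD)
      rw [Finsupp.weight_apply, Finsupp.sum_fintype _ _ (fun i => by simp)] at h
      rw [← h, Fintype.sum_option]
      simp
    obtain ⟨i, hi⟩ : ∃ i, D (some i) < m i := by
      by_contra hcon
      push Not at hcon
      apply hne
      have h2 : ∑ i, m i ≤ ∑ i, D (some i) := Finset.sum_le_sum fun i _ => hcon i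
      have h3 : ∑ i, m i = ∑ i, D (some i) := by omega
      have h4 := (Finset.sum_eq_sum_iff_of_le (s := Finset.univ) (f := fun i => m i) (g := fun i => D (some i))
          (fun i _ => hcon i)).1 h3
      ext o
      cases o with
      | none => rw [hDn]; omega
      | some i => rw [hD0]; exact (h4 i (Finset.mem_univ _)).symm
    rw [mixed_mono, Finset.prod_eq_zero (Finset.mem_univ i) (wt_sum_lt hi), mul_zero, mul_zero]
  · intro h
    rw [notMem_support_iff.1 h, zero_mul]

/-- mixed differences of a homogeneous form -/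
theorem mixed_form (g : ℕ) (m : κ →₀ ℕ) (hm : ∑ i, m i = g) (P : MvPolynomial κ ℤ) (hP : P.IsHomogeneous g) :
    mixed m (fun x => eval x P) = (∏ i, ((m i).factorial : ℤ)) * P.coeff m := by
  have h := mixed_hom g m hm (rename some P) (hP.rename_isHomogeneous) 0
  rw [coeff_rename_mapDomain _ (Option.some_injective _)] at h
  rw [← h]
  congr 1
  funext x
  rw [eval_rename]
  rfl

/-- **Values of the Pfaffian of a linear system.** -/
theorem exists_value_mix {I : Type*} [Fintype I] [DecidableEq I] (g : ℕ) (hI : Fintype.card I = 2 * g)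
    (w : κ → I → I → ℤ) (P : MvPolynomial κ ℤ) (hP : IsPf w P) (q : ℤ)
    (m : κ →₀ ℕ) (hm : ¬ q ∣ (∏ i, ((m i).factorial : ℤ)) * P.coeff m)
    (b : Matrix I I ℤ) (hb : Alt b) (e : Fin (2 * g) ≃ I) :
    ∃ c : κ → ℤ, ¬ q ∣ pf (2 * g) ((b + ∑ i, c i • dif (w i)).submatrix e e) := by
  let A : Matrix (Fin (2 * g)) (Fin (2 * g)) (MvPolynomial κ ℤ) :=
    Matrix.of fun u v => ∑ i, C (w i (e u) (e v) - w i (e v) (e u)) * X i
  have hA : ∀ i j, A i j = - A j i := by
    intro i j
    simp only [A, Matrix.of_apply, ← Finset.sum_neg_distrib]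
    refine Finset.sum_congr rfl fun k _ => ?_
    rw [← neg_mul, ← C_neg, neg_sub]
  have h1 : pf (2 * g) A ^ 2 = P ^ 2 := by
    rw [pf_sq_poly A hA, hP]
    have : A = (Matrix.of fun u v => ∑ i, C (w i u v - w i v u) * X i : Matrix I I (MvPolynomial κ ℤ)).submatrix e e := rfl
    rw [this, Matrix.det_submatrix_equiv_self]
  have h2 : pf (2 * g) A = P ∨ pf (2 * g) A = -P := sq_eq_sq_iff_eq_or_eq_neg.1 h1
  have hhom : (pf (2 * g) A).IsHomogeneous g := by
    refine hom_pf g _ fun u v => ?_
    simp only [A, Matrix.of_apply]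
    refine IsHomogeneous.sum _ _ _ fun i _ => ?_
    have := (isHomogeneous_C κ (w i (e u) (e v) - w i (e v) (e u))).mul (isHomogeneous_X ℤ i)
    rwa [zero_add] at this
  have hm' : ¬ q ∣ (∏ i, ((m i).factorial : ℤ)) * (pf (2 * g) A).coeff m := by
    rcases h2 with h2 | h2
    · rw [h2]; exact hm
    · rw [h2, coeff_neg, mul_neg, dvd_neg]; exact hm
  have hmg : ∑ i, m i = g := by
    have h3 : (pf (2 * g) A).coeff m ≠ 0 := fun h => hm' (by rw [h, mul_zero]; exact dvd_zero _)
    have h := hhom h3
    rw [Finsupp.weight_apply, Finsupp.sum_fintype _ _ (fun i => by simp)] at h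
    simpa using h
  let F : MvPolynomial (Option κ) ℤ :=
    pf (2 * g) (Matrix.of fun u v => C (b (e u) (e v)) * X none + ∑ i, C (w i (e u) (e v) - w i (e v) (e u)) * X (some i))
  have hF : F.IsHomogeneous g := by
    refine hom_pf g _ fun u v => ?_
    simp only [Matrix.of_apply]
    refine IsHomogeneous.add ?_ (IsHomogeneous.sum _ _ _ fun i _ => ?_)
    · have := (isHomogeneous_C (Option κ) (b (e u) (e v))).mul (isHomogeneous_X ℤ (none : Option κ))
      rwa [zero_add] at this
    · have := (isHomogeneous_C (Option κ) (w i (e u) (e v) - w i (e v) (e u))).mul (isHomogeneous_X ℤ (some i))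
      rwa [zero_add] at this
  have hev : ∀ (a : ℤ) (x : κ → ℤ), eval (fun o : Option κ => Option.elim o a x) F =
      pf (2 * g) ((a • b + ∑ i, x i • dif (w i)).submatrix e e) := by
    intro a x
    simp only [F]
    rw [pf_map (eval fun o : Option κ => Option.elim o a x)]
    congr 1
    ext u v
    simp only [Matrix.map_apply, Matrix.of_apply, map_add, map_mul, eval_C, eval_X, map_sum, Matrix.add_apply,
      Matrix.smul_apply, Matrix.sum_apply, smul_eq_mul, Matrix.submatrix_apply, dif, Option.elim]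
    rw [mul_comm]
    congr 1
    exact Finset.sum_congr rfl fun i _ => mul_comm _ _
  have hev0 : ∀ x : κ → ℤ, eval x (pf (2 * g) A) = pf (2 * g) ((∑ i, x i • dif (w i)).submatrix e e) := by
    intro x
    rw [pf_map (eval x)]
    congr 1
    ext u v
    simp only [A, Matrix.map_apply, Matrix.of_apply, map_mul, eval_C, eval_X, map_sum,
      Matrix.smul_apply, Matrix.sum_apply, smul_eq_mul, Matrix.submatrix_apply, dif]
    exact Finset.sum_congr rfl fun i _ => mul_comm _ _
  have e0 := mixed_form g m hmg _ hhom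
  have e1 := mixed_hom g m hmg F hF 0
  have e2 := mixed_hom g m hmg F hF 1
  simp only [hev, zero_smul, zero_add, one_smul] at e1 e2
  simp only [hev0] at e0
  by_contra hcon
  push Not at hcon
  apply hm'
  rw [← e0, e1, ← e2, mixed]
  exact Finset.dvd_sum fun k _ => Dvd.dvd.mul_left (hcon _) _

end Pool.Agent.R992.PI
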