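import Mathlib
import Pool.Agent.R992.PI.Nss

/-! Towers of blocks of abstract symbols. -/

set_option autoImplicit false
set_option linter.all false

open Matrix

noncomputable section

namespace Pool.Agent.R992.PI

open Pool.Agent.Y109.PI

variable {G B : Type*} [CommGroup G] [CommGroup B] {s : G →* G →* B}

/-- the subgroup generated by symbols -/
def Sy (s : G →* G →* B) (H : Subgroup G) : Subgroup B := Subgroup.closure {γ | ∃ a ∈ H, ∃ b ∈ H, γ = s a b}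

theorem sy_mem {H : Subgroup G} {a b : G} (ha : a ∈ H) (hb : b ∈ H) : s a b ∈ Sy s H :=
  Subgroup.subset_closure ⟨a, ha, b, hb, rfl⟩

/-- one block -/
theorem block (hanti : ∀ a b, s a b = (s b a)⁻¹) (n : ℕ) (hn : 0 < n)
    (htors : ∀ a b, s a b ^ n = 1) (ε : G)
    (H : Subgroup G) (hε : ε ∈ H) (hdiag : ∀ a, s a a = 1 ∨ s a a = s a ε) (V : Subgroup B)
    (hV : ∀ a ∈ H, ∀ b ∈ H, s a b ∈ V) {I : Type*} [Fintype I] [DecidableEq I] (g : ℕ)
    (hI : Fintype.card I = 2 * g) (z : I → G) {t : ℕ} (w : Fin t → I → I → ℤ)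
    (hw : ∀ i, Q s z (w i) ∈ low s H V z) (P : MvPolynomial (Fin t) ℤ) (hP : IsPf w P)
    (hm : ∀ p : ℕ, p.Prime → p ∣ n → ∃ m : Fin t →₀ ℕ, (∀ i, m i < p) ∧ ¬ (p : ℤ) ∣ P.coeff m)
    (α : B) (hα : α ∈ Subgroup.closure {γ | ∃ a ∈ H ⊔ Subgroup.closure (Set.range z),
      ∃ b ∈ H ⊔ Subgroup.closure (Set.range z), γ = s a b}) :
    ∃ x y : Fin g → G, ∃ v ∈ V, α = (∏ i, s (x i) (y i)) * v := by
  refine abs_main hanti n hn htors ε H hε hdiag V hV z g hI (fun b hb => ?_) α hα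
  obtain ⟨c, hc⟩ := nd_all n g hn hI w P hP hm b hb
  refine ⟨∑ i, c i • w i, ?_, ?_⟩
  · rw [Q_comb]
    exact Subgroup.prod_mem _ fun i _ => Subgroup.zpow_mem _ (hw i) _
  · rw [dif_comb]
    exact hc

/-- a product of `N` symbols and an element of `V` -/
def Rep (s : G →* G →* B) (N : ℕ) (V : Subgroup B) (α : B) : Prop :=
  ∃ x y : Fin N → G, ∃ v ∈ V, α = (∏ i, s (x i) (y i)) * v

theorem Rep.add {N N' : ℕ} {V : Subgroup B} {v : B} (x y : Fin N → G) (h : Rep s N' V v) :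
    Rep s (N + N') V ((∏ i, s (x i) (y i)) * v) := by
  obtain ⟨x', y', v', hv', rfl⟩ := h
  refine ⟨Fin.append x x', Fin.append y y', v', hv', ?_⟩
  rw [Fin.prod_univ_add]
  simp only [Fin.append_left, Fin.append_right]
  rw [mul_assoc]

/-- **A tower of blocks.** -/
theorem tower (hanti : ∀ a b, s a b = (s b a)⁻¹) (n : ℕ) (hn : 0 < n)
    (htors : ∀ a b, s a b ^ n = 1) (ε : G) (hdiag : ∀ a, s a a = 1 ∨ s a a = s a ε) :
    ∀ (r : ℕ) (Gs : Fin (r + 1) → Subgroup G) (hε : ∀ i, ε ∈ Gs i) (g t : Fin r → ℕ) (I : Fin r → Type)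
      [inst1 : ∀ i, Fintype (I i)] [inst2 : ∀ i, DecidableEq (I i)] (hI : ∀ i, Fintype.card (I i) = 2 * g i)
      (z : ∀ i, I i → G) (hGs : ∀ i : Fin r, Gs i.castSucc = Gs i.succ ⊔ Subgroup.closure (Set.range (z i)))
      (w : ∀ i, Fin (t i) → I i → I i → ℤ)
      (hw : ∀ i j, Q s (z i) (w i j) ∈ low s (Gs i.succ) (Sy s (Gs i.succ)) (z i))
      (P : ∀ i, MvPolynomial (Fin (t i)) ℤ) (hP : ∀ i, IsPf (w i) (P i))
      (hm : ∀ i, ∀ p : ℕ, p.Prime → p ∣ n → ∃ m : Fin (t i) →₀ ℕ, (∀ j, m j < p) ∧ ¬ (p : ℤ) ∣ (P i).coeff m)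
      (α : B) (hα : α ∈ Sy s (Gs 0)), Rep s (∑ i, g i) (Sy s (Gs (Fin.last r))) α := by
  intro r
  induction r with
  | zero =>
    intro Gs hε g t I _ _ hI z hGs w hw P hP hm α hα
    refine ⟨fun i => 1, fun i => 1, α, ?_, ?_⟩
    · exact hα
    · simp
  | succ r ih =>
    intro Gs hε g t I _ _ hI z hGs w hw P hP hm α hα
    have h0 := hGs 0
    rw [Fin.castSucc_zero] at h0
    rw [Sy, h0] at hα
    obtain ⟨x, y, v, hv, hα'⟩ := block hanti n hn htors ε (Gs (Fin.succ 0)) (hε _) hdiag (Sy s (Gs (Fin.succ 0)))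
      (fun a ha b hb => sy_mem ha hb) (g 0) (hI 0) (z 0) (w 0) (hw 0) (P 0) (hP 0) (hm 0) α hα
    have h1 := ih (fun i => Gs i.succ) (fun i => hε _) (fun i => g i.succ) (fun i => t i.succ) (fun i => I i.succ)
      (fun i => hI _) (fun i => z i.succ) (fun i => by
        have := hGs i.succ
        rw [← Fin.succ_castSucc] at this
        exact this) (fun i => w i.succ) (fun i j => hw i.succ j) (fun i => P i.succ) (fun i => hP i.succ)
      (fun i => hm i.succ) v hv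
    rw [Fin.sum_univ_succ, hα']
    exact Rep.add x y h1

end Pool.Agent.R992.PI
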