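import Mathlib
import Pool.Agent.R992.PI.Dif
import Pool.Agent.Y109.PI.Fac

/-! The index bound by intersection numbers. -/

set_option autoImplicit false
set_option linter.all false

open scoped TensorProduct
open Matrix

noncomputable section

namespace Pool.Agent.R992.PI

open Pool.Agent.Helper346.Bra Pool.Agent.Helper18.Br Pool.Agent.H552R3.SymBr Pool.Agent.H552R3.SymPred
  Pool.Agent.H552R3.Tsen Pool.Agent.Helper929 Pool.Agent.Y109.PI

universe u

/-- congruences modulo prime powers -/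
theorem crt_pow (n : ℕ) (hn : 0 < n) (s : ℕ → ℕ) (a : ℕ → ℤ) :
    ∃ x : ℤ, ∀ p : ℕ, p.Prime → p ∣ n → ((p ^ s p : ℕ) : ℤ) ∣ x - a p := by
  classical
  have hs0 : ∀ p ∈ n.primeFactors, p ^ s p ≠ 0 := fun p hp => pow_ne_zero _ (Nat.prime_of_mem_primeFactors hp).ne_zero
  obtain ⟨k, hk⟩ := Nat.chineseRemainderOfFinset (fun p => (a p % ((p ^ s p : ℕ) : ℤ)).toNat) (fun p => p ^ s p)
    n.primeFactors hs0
    (fun p hp q hq hpq => Nat.Coprime.pow _ _ ((Nat.coprime_primes (Nat.prime_of_mem_primeFactors hp)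
      (Nat.prime_of_mem_primeFactors hq)).2 hpq))
  refine ⟨k, fun p hp hpn => ?_⟩
  have hmem : p ∈ n.primeFactors := Nat.mem_primeFactors.2 ⟨hp, hpn, hn.ne'⟩
  have h3 := hk p hmem
  have hs : ((p ^ s p : ℕ) : ℤ) ≠ 0 := by exact_mod_cast hs0 p hmem
  have h5 : ((k : ℕ) : ℤ) ≡ ((a p % ((p ^ s p : ℕ) : ℤ)).toNat : ℤ) [ZMOD ((p ^ s p : ℕ) : ℤ)] :=
    Int.natCast_modEq_iff.2 h3
  rw [Int.toNat_of_nonneg (Int.emod_nonneg _ hs)] at h5
  have h6 : (k : ℤ) ≡ a p [ZMOD ((p ^ s p : ℕ) : ℤ)] := h5.trans (Int.mod_modEq _ _)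
  exact (Int.modEq_iff_dvd.1 h6.symm)

/-- congruent matrices have congruent Pfaffians -/
theorem pf_congr (q : ℕ) {N : ℕ} (A A' : Matrix (Fin N) (Fin N) ℤ) (h : ∀ u v, (q : ℤ) ∣ A u v - A' u v) :
    (q : ℤ) ∣ pf N A - pf N A' := by
  rw [← ZMod.intCast_zmod_eq_zero_iff_dvd, Int.cast_sub, sub_eq_zero]
  have h1 := pf_map (Int.castRingHom (ZMod q)) N A
  have h2 := pf_map (Int.castRingHom (ZMod q)) N A'
  rw [eq_intCast] at h1 h2
  rw [h1, h2]
  congr 1
  ext u v
  have h3 := h u v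
  rw [← ZMod.intCast_zmod_eq_zero_iff_dvd, Int.cast_sub, sub_eq_zero] at h3
  exact h3

/-- **A good member of a linear system of alternating matrices.** -/
theorem exists_good_mix {I κ : Type*} [Fintype I] [DecidableEq I] [Fintype κ] [DecidableEq κ] (g : ℕ)
    (hI : Fintype.card I = 2 * g) (n d : ℕ) (hn : 0 < n)
    (w : κ → I → I → ℤ) (P : MvPolynomial κ ℤ) (hP : IsPf w P)
    (hm : ∀ p : ℕ, p.Prime → p ∣ n → ∃ m : κ →₀ ℕ,
      ¬ (p : ℤ) ^ (d.factorization p + 1) ∣ (∏ i, ((m i).factorial : ℤ)) * P.coeff m)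
    (b : Matrix I I ℤ) (hb : Alt b) :
    ∃ (c : κ → ℤ) (Pv : ℤ), (b + ∑ i, c i • dif (w i)).det = Pv ^ 2 ∧
      ∀ p : ℕ, p.Prime → p ∣ n → ¬ (p : ℤ) ^ (d.factorization p + 1) ∣ Pv := by
  let e : Fin (2 * g) ≃ I := (finCongr hI.symm).trans (Fintype.equivFin I).symm
  have h1 : ∀ p : ℕ, ∃ c : κ → ℤ, p.Prime → p ∣ n →
      ¬ (p : ℤ) ^ (d.factorization p + 1) ∣ pf (2 * g) ((b + ∑ i, c i • dif (w i)).submatrix e e) := by
    intro p
    by_cases hp : p.Prime ∧ p ∣ n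
    · obtain ⟨m, hm'⟩ := hm p hp.1 hp.2
      obtain ⟨c, hc⟩ := exists_value_mix g hI w P hP _ m hm' b hb e
      exact ⟨c, fun _ _ => hc⟩
    · exact ⟨0, fun a b => absurd ⟨a, b⟩ hp⟩
  choose a ha using h1
  choose x hx using fun i => crt_pow n hn (fun p => d.factorization p + 1) (fun p => a p i)
  refine ⟨x, pf (2 * g) ((b + ∑ i, x i • dif (w i)).submatrix e e), ?_, fun p hp hpn h => ha p hp hpn ?_⟩
  · have halt : Alt (b + ∑ i, x i • dif (w i)) := hb.add (Alt.sum _ _ fun i => (alt_dif (w i)).smul _)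
    have h9 := pf_sq_int ((b + ∑ i, x i • dif (w i)).submatrix e e) (fun u v => halt.2 (e u) (e v))
    rw [h9, Matrix.det_submatrix_equiv_self]
  · have h2 := pf_congr (p ^ (d.factorization p + 1)) ((b + ∑ i, x i • dif (w i)).submatrix e e)
      ((b + ∑ i, a p i • dif (w i)).submatrix e e) (by
        intro u v
        have h3 : ((b + ∑ i, x i • dif (w i)).submatrix e e) u v - ((b + ∑ i, a p i • dif (w i)).submatrix e e) u v =
            ∑ i, (x i - a p i) * dif (w i) (e u) (e v) := by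
          simp only [Matrix.submatrix_apply, Matrix.add_apply, Matrix.sum_apply, Matrix.smul_apply, smul_eq_mul,
            sub_mul, Finset.sum_sub_distrib]
          ring
        rw [h3]
        exact Finset.dvd_sum fun i _ => Dvd.dvd.mul_right (hx i p hp hpn) _)
    rw [Nat.cast_pow] at h2
    have h4 := dvd_sub h h2
    rwa [sub_sub_cancel] at h4

section

variable {G B : Type*} [CommGroup G] [CommGroup B] {s : G →* G →* B} {I : Type*} [Fintype I]

/-- **Normal form with elementary divisors.** -/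
theorem abs_frob_mix [DecidableEq I] (hanti : ∀ a b, s a b = (s b a)⁻¹) (n d : ℕ) (hn : 1 < n)
    (htors : ∀ a b, s a b ^ n = 1) (ε : G)
    (H : Subgroup G) (hε : ε ∈ H) (hdiag : ∀ a, s a a = 1 ∨ s a a = s a ε) (V : Subgroup B)
    (hV : ∀ a ∈ H, ∀ b ∈ H, s a b ∈ V) (z : I → G) (g : ℕ) (hI : Fintype.card I = 2 * g)
    {t : ℕ} (w : Fin t → I → I → ℤ) (hw : ∀ i, Q s z (w i) ∈ low s H V z)
    (P : MvPolynomial (Fin t) ℤ) (hP : IsPf w P)
    (hm : ∀ p : ℕ, p.Prime → p ∣ n → ∃ m : Fin t →₀ ℕ,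
      ¬ (p : ℤ) ^ (d.factorization p + 1) ∣ (∏ i, ((m i).factorial : ℤ)) * P.coeff m)
    (α : B) (hα : α ∈ Subgroup.closure {γ | ∃ a ∈ H ⊔ Subgroup.closure (Set.range z),
      ∃ b ∈ H ⊔ Subgroup.closure (Set.range z), γ = s a b}) :
    ∃ (δ : Fin g → ℤ) (Pv : ℤ), (∏ i, δ i) ∣ Pv ∧
      (∀ p : ℕ, p.Prime → p ∣ n → ¬ (p : ℤ) ^ (d.factorization p + 1) ∣ Pv) ∧
      ∃ E F a b : Fin g → G, (∀ i, a i ∈ H) ∧ (∀ i, b i ∈ H) ∧ ∃ v ∈ V,
        α = (∏ i, (s (E i) (F i) ^ δ i * s (a i) (E i) * s (b i) (F i))) * v := by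
  obtain ⟨w1, hw1⟩ := exists_Q hanti H V hV z α hα
  obtain ⟨c, Pv, hPv, hPp⟩ := exists_good_mix g hI n d (by omega) w P hP hm (dif w1) (alt_dif w1)
  set b : Matrix I I ℤ := dif w1 + ∑ i, c i • dif (w i) with hb
  have hbalt : Alt b := (alt_dif w1).add (Alt.sum _ _ fun i => (alt_dif (w i)).smul _)
  have hP0 : Pv ≠ 0 := by
    obtain ⟨p, hp, hpn⟩ := Nat.exists_prime_and_dvd hn.ne'
    rintro rfl
    exact hPp p hp hpn (dvd_zero _)
  obtain ⟨δ, e, f, A, C, hbef, hAC, hδ⟩ := frob_matrix g hI b hbalt (by rw [hPv]; exact pow_ne_zero 2 hP0)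
  have hdP : (∏ i, δ i) ∣ Pv := by
    rw [hPv] at hδ
    exact (Int.pow_dvd_pow_iff two_ne_zero).1 hδ
  -- modulo lower terms
  have hprod : ∏ i, s (mon z (e i)) (mon z (f i)) ^ δ i = Q s z (∑ i, δ i • fun u v => e i u * f i v) := by
    rw [Q_sum]
    refine Finset.prod_congr rfl fun i _ => ?_
    rw [Q_smul, ← s_mon]
  have h1 := Q_congr hanti n htors ε H hε hdiag V z (w1 + ∑ i, c i • w i) (∑ i, δ i • fun u v => e i u * f i v) (by
    intro u v
    have e1 : (w1 + ∑ i, c i • w i) u v - (w1 + ∑ i, c i • w i) v u = b u v := by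
      rw [hb, ← dif_comb]
      simp only [Pi.add_apply, Matrix.add_apply, Matrix.of_apply, dif]
      ring
    have e2 : (∑ i, δ i • fun u v => e i u * f i v : I → I → ℤ) u v -
        (∑ i, δ i • fun u v => e i u * f i v : I → I → ℤ) v u = b u v := by
      rw [hbef]
      simp only [Finset.sum_apply, Pi.smul_apply, Matrix.sum_apply, Matrix.smul_apply, wdg, Matrix.of_apply,
        smul_eq_mul]
      rw [← Finset.sum_sub_distrib]
      refine Finset.sum_congr rfl fun i _ => ?_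
      ring
    rw [e1, e2, sub_self]; exact dvd_zero _)
  have hw0 : Q s z (∑ i, c i • w i) ∈ low s H V z := by
    rw [Q_comb]
    exact Subgroup.prod_mem _ fun i _ => Subgroup.zpow_mem _ (hw i) _
  rw [← hprod, Q_add] at h1
  have h3 := Subgroup.mul_mem _ (Subgroup.mul_mem _ hw1 h1) (Subgroup.inv_mem _ hw0)
  have e1 : ∀ p q r : B, α * p⁻¹ * (p * q * r) * q⁻¹ = α * r := by
    intro p q r
    calc α * p⁻¹ * (p * q * r) * q⁻¹ = α * r * (p * p⁻¹) * (q * q⁻¹) := by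
          simp only [mul_assoc, mul_comm, mul_left_comm]
      _ = α * r := by rw [mul_inv_cancel, mul_inv_cancel, mul_one, mul_one]
  rw [e1] at h3
  obtain ⟨a, b', ha, hb', v, hv, h⟩ := low_absorb' H V z g (fun i => mon z (e i)) (fun i => mon z (f i)) (by
    intro u
    refine ⟨fun i => A i u, fun i => C i u, ?_⟩
    rw [← mon_sum, ← mon_sum, ← mon_add]
    have h4 : ((fun v => ∑ k, A k u * e k v) + fun v => ∑ k, C k u * f k v) = Pi.single u 1 := by
      funext v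
      rw [Pi.add_apply, hAC u v, Pi.single_apply]
      simp only [eq_comm]
    rw [h4, mon_single, zpow_one]) _ h3
  refine ⟨δ, Pv, hdP, hPp, fun i => mon z (e i), fun i => mon z (f i), a, b', ha, hb', v, hv, ?_⟩
  have h5 : α = (∏ i, s (mon z (e i)) (mon z (f i)) ^ δ i) *
      ((∏ i, (s (a i) (mon z (e i)) * s (b' i) (mon z (f i)))) * v) := by
    rw [← h, mul_comm α, mul_inv_cancel_left]
  rw [h5, ← mul_assoc, ← Finset.prod_mul_distrib]
  congr 1
  exact Finset.prod_congr rfl fun i _ => (mul_assoc _ _ _).symm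

end

theorem dvd_of_loc (n d R : ℕ) (hn : 0 < n) (hd : 0 < d) (hR : 0 < R) (hRn : ∃ N, R ∣ n ^ N) (Pv : ℤ)
    (hRP : (R : ℤ) ∣ Pv) (h : ∀ p : ℕ, p.Prime → p ∣ n → ¬ (p : ℤ) ^ (d.factorization p + 1) ∣ Pv) : R ∣ d := by
  obtain ⟨N, hN⟩ := hRn
  rw [← Nat.factorization_le_iff_dvd hR.ne' hd.ne']
  intro p
  by_cases hp : p.Prime
  · by_contra hlt
    push Not at hlt
    have h3 : p ^ (d.factorization p + 1) ∣ R := (hp.pow_dvd_iff_le_factorization hR.ne').2 hlt
    have hpn : p ∣ n := hp.dvd_of_dvd_pow (((dvd_pow_self p (Nat.succ_ne_zero _)).trans h3).trans hN)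
    apply h p hp hpn
    have h4 : ((p ^ (d.factorization p + 1) : ℕ) : ℤ) ∣ (R : ℤ) := Int.natCast_dvd_natCast.2 h3
    rw [Nat.cast_pow] at h4
    exact h4.trans hRP
  · rw [Nat.factorization_eq_zero_of_not_prime _ hp]
    exact Nat.zero_le _

/-- **The index bound by intersection numbers.** -/
theorem index_int {k : Type u} [Field k] {n : ℕ} (hn : 0 < n) {ζ : k} (hζ : IsPrimitiveRoot ζ n)
    {e m : ℕ} (hm : 0 < m) (hbase : Base hn hζ e m) {K : Type u} [Field K] [Algebra k K]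
    (L : IntermediateField k K) (hL : Algebra.trdeg k L ≤ e)
    (H : Subgroup Kˣ) (hH : ∀ a : Kˣ, a ∈ H ↔ (a : K) ∈ L)
    {I : Type} [Fintype I] [DecidableEq I] (z : I → Kˣ) (g : ℕ) (hI : Fintype.card I = 2 * g)
    {t : ℕ} (w : Fin t → I → I → ℤ)
    (hw : ∀ i, Q (symHom hn (rootK K hζ)) z (w i) ∈ low (symHom hn (rootK K hζ)) H (VL hn hζ K L) z)
    (P : MvPolynomial (Fin t) ℤ) (hP : IsPf w P) (d : ℕ) (hd : 0 < d)
    (hmono : ∀ p : ℕ, p.Prime → p ∣ n → ∃ m : Fin t →₀ ℕ,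
      ¬ (p : ℤ) ^ (d.factorization p + 1) ∣ (∏ i, ((m i).factorial : ℤ)) * P.coeff m)
    (α : BrauerGroup.{u, u} K) (hα : α ∈ Subgroup.closure {γ | ∃ a ∈ H ⊔ Subgroup.closure (Set.range z),
      ∃ b ∈ H ⊔ Subgroup.closure (Set.range z), γ = symHom hn (rootK K hζ) a b}) :
    IndDvd α (m * (n ^ g * d)) := by
  rcases Nat.lt_or_ge 1 n with h1 | h1
  · have hneg : (-1 : Kˣ) ∈ H := by
      rw [hH, Units.val_neg, Units.val_one]
      exact L.neg_mem L.one_mem
    obtain ⟨δ, Pv, hdP, hPp, E, F, a, b, ha, hb, v, hv, hαv⟩ := abs_frob_mix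
      (s := symHom hn (rootK K hζ)) (fun a b => symCl_anti hn (rootK K hζ) a b) n d h1
      (fun a b => symCl_tors hn (rootK K hζ) a b) (-1) H hneg (fun a => symCl_diag hn (rootK K hζ) a)
      (VL hn hζ K L) (fun a ha b hb => Subgroup.subset_closure ⟨a, b, (hH a).1 ha, (hH b).1 hb, rfl⟩) z g hI w hw
      P hP hmono α hα
    choose r u u' hrn hrd hdu huu using fun i => unit_rep n hn (δ i)
    have hr0 : ∀ i, 0 < r i := fun i => Nat.pos_of_dvd_of_pos (hrn i) hn
    have hR0 : 0 < ∏ i, r i := Finset.prod_pos fun i _ => hr0 i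
    have hRP : ((∏ i, r i : ℕ) : ℤ) ∣ Pv := by
      rw [Nat.cast_prod]
      exact (Finset.prod_dvd_prod_of_dvd _ _ fun i _ => hrd i).trans hdP
    have hRn : ∃ N, (∏ i, r i) ∣ n ^ N := ⟨g, by
      have := Finset.prod_dvd_prod_of_dvd (s := Finset.univ) r (fun _ => n) fun i _ => hrn i
      rwa [Finset.prod_const, Finset.card_univ, Fintype.card_fin] at this⟩
    have hRc := dvd_of_loc n d _ hn hd hR0 hRn Pv hRP hPp
    have key := Pool.Agent.Y109.PI.tower hn hζ hm hbase g u u' huu (∏ i, r i) hR0 K L hL E F a b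
      (fun i => (hH _).1 (ha i)) (fun i => (hH _).1 (hb i)) (fun _ => 1) r rfl v hv
    have hterm : (∏ i, term k hn E F a b (fun _ => 1) r u hζ i) * v = α := by
      rw [hαv]
      congr 1
      refine Finset.prod_congr rfl fun i _ => ?_
      rw [term, pow_one]
      congr 2
      obtain ⟨c, hc⟩ := hdu i
      have e1 : δ i = (((1 * r i : ℕ) : ℤ) * u i) + n * c := by rw [← hc]; push_cast; ring
      change symCl hn (rootK K hζ) (E i) (F i) ^ _ = symCl hn (rootK K hζ) (E i) (F i) ^ _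
      rw [e1, _root_.zpow_add, _root_.zpow_mul _ (n : ℤ), zpow_natCast, symCl_tors, _root_.one_zpow, mul_one]
    rw [hterm] at key
    intro D _ _ _ _ hD
    refine (key D hD).trans ?_
    obtain ⟨c, hc⟩ := hRc
    rw [hc]
    exact ⟨c, by ring⟩
  · have hn1 : n = 1 := by omega
    have hα1 : α = 1 := by
      have hle : Subgroup.closure {γ | ∃ a ∈ H ⊔ Subgroup.closure (Set.range z),
          ∃ b ∈ H ⊔ Subgroup.closure (Set.range z), γ = symHom hn (rootK K hζ) a b} ≤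
          (⊥ : Subgroup (BrauerGroup.{u, u} K)) := by
        rw [Subgroup.closure_le]
        rintro γ ⟨a, -, b, -, rfl⟩
        have h2 := symCl_tors hn (rootK K hζ) a b
        rw [SetLike.mem_coe, Subgroup.mem_bot, symHom_apply]
        have h3 : symCl hn (rootK K hζ) a b ^ 1 = 1 := by
          conv_lhs => rw [show (1 : ℕ) = n from hn1.symm]
          exact h2
        rwa [pow_one] at h3
      simpa using hle hα
    subst hα1
    intro D _ _ _ _ hD
    exact (hasRep_one.indDvd D hD).trans (one_dvd _)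

end Pool.Agent.R992.PI
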